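import Mathlib
import Pool.Agent.Helper226.Inst396

set_option autoImplicit false

open AlgebraicGeometry MvPolynomial

universe u

namespace Pool.Agent.Results.MP_851c4e_ag.NotAComponent

open Pool.Agent.Helper226

/-- The points of the locus `VC_{3,96}`: the local algebras `k[x_1,x_2,x_3]/I` of length `96`,
supported at an arbitrary point `v` of affine `3`-space, with Hilbert function
`(1, 3, 6, 10, 15, 21, 28, 12)`. -/
def IsVC {k : Type u} [Field k] (I : Ideal (MvPolynomial (Fin 3) k)) : Prop :=
  ∃ v : Fin 3 → k, I.radical = pointIdeal v ∧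
    ∀ i, hilbFn I (pointIdeal v) i = if i ≤ 6 then (i + 2).choose 2 else if i = 7 then 12 else 0

lemma isVC_iff {k : Type u} [Field k] (I : Ideal (MvPolynomial (Fin 3) k)) :
    IsVC I ↔ IsVeryCompressed 96 I := by
  constructor
  · rintro ⟨v, h1, h2⟩
    refine ⟨v, 7, by decide, by decide, h1, ?_, ?_, ?_⟩
    · intro i hi
      rw [h2, if_pos (by omega)]
      rfl
    · rw [h2]
      rfl
    · intro i hi
      rw [h2, if_neg (by omega), if_neg (by omega)]
  · rintro ⟨v, s, hs1, hs2, hr, h1, h2, h3⟩
    have hs : s = 7 := by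
      rcases lt_trichotomy s 7 with h | h | h
      · have : (3 + s).choose 3 ≤ (3 + 6).choose 3 := Nat.choose_le_choose 3 (by omega)
        have h4 : (3 + 6).choose 3 = 84 := rfl
        omega
      · exact h
      · have : (3 + 7).choose 3 ≤ (3 + s - 1).choose 3 := Nat.choose_le_choose 3 (by omega)
        have h4 : (3 + 7).choose 3 = 120 := rfl
        omega
    subst hs
    refine ⟨v, hr, fun i => ?_⟩
    rcases lt_trichotomy i 7 with h | h | h
    · rw [h1 i h, if_pos (by omega)]
      rfl
    · subst h
      rw [h2]
      rfl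
    · rw [h3 i h, if_neg (by omega), if_neg (by omega)]

/-- The closure of the very compressed locus `VC_{3,96}` is not an irreducible component of the
Hilbert scheme of `96` points of affine `3`-space. -/
theorem result (k : Type u) [Field k] [IsAlgClosed k] [CharZero k] :
    ∃ 𝓗 : HilbertScheme k (MvPolynomial (Fin 3) k) 96,
      (𝓗.locus IsVC).Nonempty ∧
      closure (𝓗.locus IsVC) ∉ irreducibleComponents 𝓗.H := by
  have hvc : (IsVC : Ideal (MvPolynomial (Fin 3) k) → Prop) = IsVeryCompressed 96 := by
    funext I
    exact propext (isVC_iff I)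
  have hz : ∀ j, Inst396.D.e j ≠ Finsupp.single 2 7 := by
    intro j hj
    have h1 := (Inst396.par j (by rw [hj, Finsupp.degree_single])).1
    rw [hj] at h1
    simp at h1
  refine ⟨hilb k (MvPolynomial (Fin 3) k) 96, ?_, ?_⟩
  · rw [hvc]
    exact ⟨_, chartι_zp_mem_locus (Inst396.D.hchart k (fun _ _ => 0) 2 hz (by norm_num)) _
      (SData.vc_of_bounds Inst396.D _ (by norm_num) (by norm_num) (by decide) (by decide)
      (by rw [Inst396.card_E]; rfl)
      (Inst396.D.hchart_high 2 hz (by norm_num) _) (Inst396.D.hchart_low 2 hz (by norm_num) _))⟩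
  · rw [hvc]
    exact SData.closure_not_component Inst396.D Inst396.par (by norm_num) (by decide) (by decide)
      (by rw [Inst396.card_E]; rfl)

end Pool.Agent.Results.MP_851c4e_ag.NotAComponent
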